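import Mathlib
import Pool.Agent.Lib.helper11.Auto

namespace Pool.Agent.Results.MP_c55a01_nt.NotAuto

def kernel (k : ℕ) (a : ℕ → ℤ) : Set (ℕ → ℤ) :=
  {f | ∃ e j : ℕ, j < k ^ e ∧ f = fun n => a (k ^ e * n + j)}

def d (q b : ℕ) : ℕ :=
  if q = 0 then (if b = 0 then 0 else 1) else if q = 1 then (if b = 0 then 2 else 3)
  else if q = 2 then (if b = 0 then 2 else 4) else if q = 3 then (if b = 0 then 5 else 3)
  else if q = 4 then (if b = 0 then 4 else 5) else 5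

def w (q b : ℕ) : ℤ :=
  if q = 0 then 0 else if q = 1 then 1 else if q = 2 then (if b = 0 then 1 else -1)
  else if q = 3 then (if b = 0 then -1 else 1) else -1

def tc (m : ℕ) : ℕ × ℤ :=
  if _h : m = 0 then (0, 0) else (d (tc (m / 2)).1 (m % 2), (tc (m / 2)).2 + w (tc (m / 2)).1 (m % 2))
decreasing_by all_goals omega

lemma tc_zero : tc 0 = (0, 0) := by rw [tc]; simp

lemma tc_step (m b : ℕ) (hb : b < 2) :
    tc (2 * m + b) = (d (tc m).1 b, (tc m).2 + w (tc m).1 b) := by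
  rw [tc]
  split_ifs with h
  · obtain rfl : m = 0 := by omega
    obtain rfl : b = 0 := by omega
    simp [tc_zero, d, w]
  · rw [show (2 * m + b) / 2 = m by omega, show (2 * m + b) % 2 = b by omega]

def sg (m : ℕ) : ℕ × ℕ × ℤ := ((tc m).1, (tc (m + 1)).1, (tc (m + 1)).2 - (tc m).2)

def dl (q : ℕ × ℕ × ℤ) (b : ℕ) : ℕ × ℕ × ℤ :=
  if b = 0 then (d q.1 0, d q.1 1, w q.1 1 - w q.1 0)
  else (d q.1 1, d q.2.1 0, q.2.2 + w q.2.1 0 - w q.1 1)

lemma sg_step (m b : ℕ) (hb : b < 2) : sg (2 * m + b) = dl (sg m) b := by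
  interval_cases b
  · rw [sg, tc_step m 0 (by norm_num), tc_step m 1 (by norm_num)]
    simp [dl, sg]
  · rw [sg, tc_step m 1 (by norm_num), show 2 * m + 1 + 1 = 2 * (m + 1) + 0 by ring,
      tc_step _ 0 (by norm_num)]
    simp [dl, sg]
    ring

def L : List (ℕ × ℕ × ℤ) := [(0, 1, 0), (1, 2, 1), (2, 3, 0), (2, 4, -2), (3, 2, 1), (4, 4, -2),
  (4, 5, 0), (5, 3, 2), (5, 4, -2), (5, 5, 0), (5, 5, 2)]

lemma tc_one : tc 1 = (1, 0) := by simpa [tc_zero, d, w] using tc_step 0 1 (by norm_num)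

lemma sg_mem (m : ℕ) : sg m ∈ L := by
  induction m using Nat.strong_induction_on with
  | _ m ih =>
    rcases Nat.eq_zero_or_pos m with rfl | hm
    · simp [sg, tc_zero, tc_one, L]
    · have h : ∀ q ∈ L, ∀ b < 2, dl q b ∈ L := by decide
      rw [← Nat.div_add_mod m 2, sg_step _ _ (by omega)]
      exact h _ (ih _ (by omega)) _ (by omega)

def ev (q : ℕ) : ℤ := if q = 4 then 0 else 1

def S (m : ℕ) : ℤ := 2 * (tc m).2 + ev (tc m).1

def a (n : ℕ) : ℤ := if n % 2 = 1 then S (n / 2 + 1) - S (n / 2) else if n = 2 then 1 else 0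

lemma tc_spec (m : ℕ) : ((tc m).1 = 0 → m = 0) ∧ ((tc m).1 = 1 → m = 1) ∧
    ((tc m).1 = 2 → ∃ x : ℕ, m = 2 ^ x ∧ (tc m).2 = x) ∧
    ((tc m).1 = 4 → ∃ x i : ℕ, m = (2 ^ (x + 1) + 1) * 2 ^ i ∧ (tc m).2 = x - 1 - i) := by
  induction m using Nat.strong_induction_on with
  | _ m ih =>
    rcases Nat.eq_zero_or_pos m with rfl | hm
    · simp [tc_zero]
    obtain ⟨n, b, hb, rfl⟩ : ∃ n b, b < 2 ∧ m = 2 * n + b := ⟨m / 2, m % 2, by omega, by omega⟩
    obtain ⟨h0, h1, h2, h4⟩ := ih n (by omega)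
    rw [tc_step n b hb]
    simp only
    refine ⟨fun h => ?_, fun h => ?_, fun h => ?_, fun h => ?_⟩
    · clear h2 h4 ih; unfold d at h; split_ifs at h <;> omega
    · clear h2 h4 ih; unfold d at h; split_ifs at h <;> omega
    · have : b = 0 ∧ ((tc n).1 = 1 ∨ (tc n).1 = 2) := by
        clear h2 h4 ih; unfold d at h; split_ifs at h <;> omega
      obtain ⟨rfl, e | e⟩ := this
      · obtain rfl := h1 e
        exact ⟨1, rfl, by simp [tc_one, w]⟩
      · obtain ⟨x, hx, hc⟩ := h2 e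
        exact ⟨x + 1, by rw [hx]; ring, by simp [e, hc, w]⟩
    · have : (b = 1 ∧ (tc n).1 = 2) ∨ (b = 0 ∧ (tc n).1 = 4) := by
        clear h2 h4 ih; unfold d at h; split_ifs at h <;> omega
      obtain ⟨rfl, e⟩ | ⟨rfl, e⟩ := this
      · obtain ⟨x, hx, hc⟩ := h2 e
        exact ⟨x, 0, by rw [hx]; ring, by simp [e, hc, w]; ring⟩
      · obtain ⟨x, i, hx, hc⟩ := h4 e
        exact ⟨x, i + 1, by rw [hx]; ring, by simp [e, hc, w]; ring⟩

lemma S_zero (m : ℕ) (h : S m = 0) : ∃ i : ℕ, m = 4 * (2 ^ i * 2 ^ i) + 2 ^ i := by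
  have h4 : (tc m).1 = 4 ∧ (tc m).2 = 0 := by unfold S ev at h; split_ifs at h <;> omega
  obtain ⟨x, i, hx, hc⟩ := (tc_spec m).2.2.2 h4.1
  obtain rfl : x = i + 1 := by omega
  exact ⟨i, by rw [hx]; ring⟩

lemma tc_pow (x : ℕ) : tc (2 ^ (x + 1)) = (2, (x : ℤ) + 1) := by
  induction x with
  | zero => simpa [tc_one, d, w] using tc_step 1 0 (by norm_num)
  | succ x ih =>
    rw [show 2 ^ (x + 1 + 1) = 2 * 2 ^ (x + 1) + 0 by ring, tc_step _ _ (by norm_num), ih]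
    simp [d, w]

lemma tc_two (x i : ℕ) : tc ((2 ^ (x + 2) + 1) * 2 ^ i) = (4, (x : ℤ) - i) := by
  induction i with
  | zero =>
    rw [show (2 ^ (x + 2) + 1) * 2 ^ 0 = 2 * 2 ^ (x + 1) + 1 by ring, tc_step _ _ (by norm_num),
      tc_pow]
    simp [d, w]
  | succ i ih =>
    rw [show (2 ^ (x + 2) + 1) * 2 ^ (i + 1) = 2 * ((2 ^ (x + 2) + 1) * 2 ^ i) + 0 by ring,
      tc_step _ _ (by norm_num), ih]
    simp [d, w]
    ring

lemma a_auto : (kernel 2 a).Finite := by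
  refine Pool.Agent.Lib.helper11.Auto.kernel_finite 2 (by norm_num)
    (fun n => (sg (n / 2), n % 2)) ((L.finite_toSet.prod (Set.finite_Iio 2)).subset ?_)
    (fun q b => (dl q.1 q.2, b))
    (fun q => if q.2 = 1 then 2 * q.1.2.2 + ev q.1.2.1 - ev q.1.1
      else if q.1.1 = 1 then 1 else 0) a ?_ ?_
  · rintro _ ⟨n, rfl⟩
    exact ⟨sg_mem _, Nat.mod_lt _ two_pos⟩
  · intro n b hb
    refine Prod.ext ?_ (by simp only; omega)
    simp only
    rw [← sg_step _ _ (by omega), Nat.div_add_mod, show (2 * n + b) / 2 = n by omega]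
  · intro n
    simp only [a, sg, S]
    split_ifs with h1 h2 h3 h3
    · ring
    · first | rfl | exact (if_pos h3).symm
    · subst h2; simp [tc_one] at h3
    · have := (tc_spec _).2.1 h3; omega
    · first | rfl | exact (if_neg h3).symm

lemma r_eq (r : ℕ → ℤ) (h0 : r 0 = 0) (h1 : r 1 = 1)
    (hr : ∀ n, r (n + 2) = a (n + 2) * r (n + 1) + r n) (m : ℕ) :
    r (2 * m + 1) = S (m + 1) ∧ r (2 * m + 2) = 1 := by
  induction m with
  | zero =>
    have := hr 0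
    simp [a, h0, h1] at this
    simp [h1, S, tc_one, ev, this]
  | succ m ih =>
    constructor
    · rw [show 2 * (m + 1) + 1 = 2 * m + 1 + 2 by ring, hr, ih.1, ih.2, a, if_pos (by omega),
        show (2 * m + 1 + 2) / 2 = m + 1 by omega]
      ring
    · rw [show 2 * (m + 1) + 2 = 2 * m + 2 + 2 by ring, hr, ih.2, a, if_neg (by omega),
        if_neg (by omega)]
      ring

lemma arith (x y : ℤ) (K β : ℤ) (hK : 2 ≤ K) (i j : ℕ) (hx : x = 2 ^ i) (hy : y = 2 ^ j)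
    (hb : |β - K + 1| < x) (hKx : K < x) (hij : i < j)
    (h : 2 * (4 * (y * y) + y) - 1 = K * (2 * (4 * (x * x) + x) - 1) + β) : False := by
  obtain ⟨e, rfl⟩ := Nat.exists_eq_add_of_lt hij
  have hx0 : 0 < x := by rw [hx]; positivity
  obtain ⟨z, hz, hz2⟩ : ∃ z : ℤ, y = x * z ∧ 2 ≤ z := by
    refine ⟨2 ^ (e + 1), by rw [hy, hx]; ring, ?_⟩
    have : (1 : ℤ) ≤ 2 ^ e := one_le_pow₀ (by norm_num)
    rw [pow_succ]; omega
  subst hz
  have h1 : β - K + 1 = 0 := Int.eq_zero_of_abs_lt_dvd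
    ⟨8 * x * z * z + 2 * z - 8 * K * x - 2 * K, by linear_combination -h⟩ hb
  have h2 : z * (4 * x * z + 1) = K * (4 * x + 1) := by
    apply mul_left_cancel₀ (show (2 * x) ≠ 0 by omega)
    linear_combination h + h1
  have h3 : z < K := by
    by_contra h3
    nlinarith [mul_pos hx0 (show 0 < z by omega)]
  have h4 : K - z = 0 := Int.eq_zero_of_abs_lt_dvd
    ⟨4 * z * z - 4 * K, by linear_combination -h2⟩ (show |K - z| < x by rw [abs_lt]; omega)
  omega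

theorem result : ∃ a : ℕ → ℤ, (Set.range a).Finite ∧ (kernel 2 a).Finite ∧
    ∀ r : ℕ → ℤ, r 0 = 0 → r 1 = 1 → (∀ n, r (n + 2) = a (n + 2) * r (n + 1) + r n) →
      ∀ k, 2 ≤ k → ¬ (kernel k (fun n => (r n).sign)).Finite := by
  refine ⟨a, (a_auto.image (fun f => f 0)).subset ?_, a_auto, fun r h0 h1 hr k hk hfin => ?_⟩
  · rintro _ ⟨n, rfl⟩
    exact ⟨_, ⟨n, n, Nat.lt_two_pow_self, rfl⟩, by simp⟩
  obtain ⟨N, hN⟩ := Pool.Agent.Lib.helper11.Auto.pump k hk (fun n => (r n).sign) hfin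
  have hp : N + 1 ≤ (2 ^ (N + 2) + 1) * 2 ^ N := by
    have : N < 2 ^ N := Nat.lt_two_pow_self
    nlinarith [Nat.zero_le (2 ^ (N + 2))]
  obtain ⟨m, hm⟩ : ∃ m, (2 ^ (N + 2) + 1) * 2 ^ N = m + 1 := ⟨_, (Nat.sub_add_cancel (by omega)).symm⟩
  obtain ⟨K, β, s, hK, hs0, hmono, hrec, hval⟩ := hN (2 * m + 1) (by omega)
  have hz : ∀ t, ∃ i : ℕ, (s t : ℤ) = 2 * (4 * (2 ^ i * 2 ^ i) + 2 ^ i) - 1 := by
    intro t
    have h2 := hval t
    rw [(r_eq r h0 h1 hr m).1, ← hm, S, tc_two] at h2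
    simp only [sub_self, mul_zero, ev, if_true, add_zero, Int.sign_zero,
      Int.sign_eq_zero_iff_zero] at h2
    have h3 : s 0 ≤ s t := hmono.monotone (Nat.zero_le t)
    rcases Nat.even_or_odd' (s t) with ⟨u, hu | hu⟩
    · obtain ⟨u, rfl⟩ : ∃ v, u = v + 1 := ⟨u - 1, by omega⟩
      rw [hu, mul_add, mul_one, (r_eq r h0 h1 hr u).2] at h2
      omega
    · rw [hu, (r_eq r h0 h1 hr u).1] at h2
      obtain ⟨i, hi⟩ := S_zero _ h2
      refine ⟨i, ?_⟩
      have : ((u + 1 : ℕ) : ℤ) = ((4 * (2 ^ i * 2 ^ i) + 2 ^ i : ℕ) : ℤ) := by rw [hi]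
      push_cast at this
      rw [hu, ← this]
      push_cast
      ring
  set B : ℕ := (β - K + 1).natAbs + K with hB
  obtain ⟨i, hi⟩ := hz (10 * (B * B) + 10)
  obtain ⟨j, hj⟩ := hz (10 * (B * B) + 10 + 1)
  have hle : 10 * (B * B) + 10 ≤ s (10 * (B * B) + 10) := hmono.id_le _
  have hx0 : (1 : ℤ) ≤ 2 ^ i := one_le_pow₀ (by norm_num)
  have hBx : (B : ℤ) < 2 ^ i := by
    by_contra h
    have h5 : (10 * (B * B) + 10 : ℤ) ≤ s (10 * (B * B) + 10) := by exact_mod_cast hle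
    nlinarith
  have hij : i < j := by
    by_contra h
    have h5 : (2 : ℤ) ^ j ≤ 2 ^ i := pow_le_pow_right₀ (by norm_num) (by omega)
    have h6 : (s (10 * (B * B) + 10) : ℤ) < s (10 * (B * B) + 10 + 1) := by
      exact_mod_cast hmono (Nat.lt_succ_self _)
    have h7 : (0 : ℤ) < 2 ^ j := by positivity
    nlinarith
  refine arith (2 ^ i) (2 ^ j) K β (by exact_mod_cast hK) i j rfl rfl ?_ (by omega) hij ?_
  · rw [Int.abs_eq_natAbs]; omega
  · rw [← hi, ← hj, hrec]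

end Pool.Agent.Results.MP_c55a01_nt.NotAuto
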